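import Mathlib

set_option autoImplicit false

open Set Topology Cardinal

universe u

namespace Pool.Agent.Results.MP_0e7155_gt.CompactClosedSubsets

/-- Injective choice from a family of at most `κ` sets each of size at least `κ`. -/
lemma exists_injective_choice {ι K : Type u} (κ : Cardinal.{u}) (hJ : #ι ≤ κ)
    (A : ι → Set K) (hA : ∀ i, κ ≤ #(A i)) :
    ∃ g : ι → K, Function.Injective g ∧ ∀ i, g i ∈ A i := by
  classical
  obtain ⟨lo, wf, hr⟩ := Cardinal.exists_ord_eq_type_lt ι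
  have key : ∀ (j : ι) (f : ∀ k, k < j → K), ∃ x ∈ A j, ∀ k (h : k < j), f k h ≠ x := by
    intro j f
    by_contra hcon
    push Not at hcon
    have h1 : #(A j) ≤ #(Iio j) := by
      have hsub : A j ⊆ range (fun k : Iio j => f k.1 k.2) := by
        intro x hx
        obtain ⟨k, h, hk⟩ := hcon x hx
        exact ⟨⟨k, h⟩, hk⟩
      exact (Cardinal.mk_le_mk_of_subset hsub).trans Cardinal.mk_range_le
    exact absurd (((hA j).trans h1).trans_lt (Cardinal.mk_Iio_lt j hr)) (not_lt.mpr hJ)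
  choose F hF1 hF2 using key
  have wf' : WellFounded ((· < ·) : ι → ι → Prop) := wf.wf
  let g : ι → K := wf'.fix F
  have hg : ∀ j, g j = F j (fun k _ => g k) := fun j => wf'.fix_eq F j
  refine ⟨g, ?_, ?_⟩
  · intro a b hab
    rcases lt_trichotomy a b with h | h | h
    · exact absurd hab (by rw [hg b]; exact hF2 b (fun k _ => g k) a h)
    · exact h
    · exact absurd hab.symm (by rw [hg a]; exact hF2 a (fun k _ => g k) b h)
  · intro i; rw [hg i]; exact hF1 i _

/-- Bernstein decomposition of a compact metric space. -/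
lemma exists_bernstein (K : Type u) [MetricSpace K] [CompactSpace K] :
    ∃ D : Set K, ∀ P : Set K, Perfect P → P.Nonempty →
      (P ∩ D).Nonempty ∧ (P ∩ Dᶜ).Nonempty := by
  classical
  let ι := {P : Set K // Perfect P ∧ P.Nonempty}
  have hι : #ι ≤ 𝔠 := by
    let B := TopologicalSpace.countableBasis K
    have hBc : B.Countable := TopologicalSpace.countable_countableBasis K
    have hB := TopologicalSpace.isBasis_countableBasis K
    let φ : ι → Set B := fun P => {b | (b : Set K) ∩ P.1 = ∅}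
    have hsub : ∀ P Q : ι, φ P = φ Q → P.1 ⊆ Q.1 := by
      intro P Q h x hx
      by_contra hxQ
      obtain ⟨b, hb, hxb, hbQ⟩ := hB.exists_subset_of_mem_open (a := x) (u := Q.1ᶜ) hxQ
        Q.2.1.closed.isOpen_compl
      have h1 : (⟨b, hb⟩ : B) ∈ φ Q := by
        change b ∩ Q.1 = ∅
        rw [← Set.disjoint_iff_inter_eq_empty, Set.disjoint_left]
        exact fun y hy hyQ => hbQ hy hyQ
      rw [← h] at h1
      have h2 : b ∩ P.1 = ∅ := h1
      have : x ∈ b ∩ P.1 := ⟨hxb, hx⟩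
      rw [h2] at this
      exact this
    have hφ : Function.Injective φ := by
      intro P Q h
      exact Subtype.ext (Subset.antisymm (hsub P Q h) (hsub Q P h.symm))
    have h3 : #(Set B) ≤ 𝔠 := by
      rw [Cardinal.mk_set]
      have hB' : #B ≤ ℵ₀ := Cardinal.mk_le_aleph0_iff.mpr hBc.to_subtype
      calc (2 : Cardinal.{u}) ^ #B ≤ 2 ^ ℵ₀ := Cardinal.power_le_power_left two_ne_zero hB'
        _ = 𝔠 := two_power_aleph0
    exact (Cardinal.mk_le_of_injective hφ).trans h3
  have hJ : #(ι ⊕ ι) ≤ 𝔠 := by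
    rw [Cardinal.mk_sum, Cardinal.lift_id, ]
    calc #ι + #ι ≤ 𝔠 + 𝔠 := add_le_add hι hι
      _ = 𝔠 := Cardinal.continuum_add_self
  have hA : ∀ i : ι ⊕ ι, 𝔠 ≤ #((Sum.elim (fun P : ι => P.1) (fun P : ι => P.1) i : Set K)) := by
    have hP : ∀ P : ι, 𝔠 ≤ #(P.1 : Set K) := by
      intro P
      obtain ⟨f, hf1, -, hf3⟩ := P.2.1.exists_nat_bool_injection P.2.2
      have : #(ULift.{u} (ℕ → Bool)) ≤ #(P.1 : Set K) := by
        refine Cardinal.mk_le_of_injective (f := fun x => (⟨f x.down, hf1 ⟨x.down, rfl⟩⟩ : P.1)) ?_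
        intro x y h
        have h' : f x.down = f y.down := congrArg Subtype.val h
        exact ULift.ext _ _ (hf3 h')
      refine le_trans (le_of_eq ?_) this
      simp
    rintro (P | P)
    · exact hP P
    · exact hP P
  obtain ⟨g, hg1, hg2⟩ := exists_injective_choice 𝔠 hJ _ hA
  refine ⟨range (g ∘ Sum.inl), ?_⟩
  intro P hP hne
  refine ⟨⟨g (Sum.inl ⟨P, hP, hne⟩), hg2 (Sum.inl ⟨P, hP, hne⟩), ⟨⟨P, hP, hne⟩, rfl⟩⟩,
    ⟨g (Sum.inr ⟨P, hP, hne⟩), hg2 (Sum.inr ⟨P, hP, hne⟩), ?_⟩⟩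
  rintro ⟨Q, hQ⟩
  have := hg1 hQ
  simp at this

lemma not_preconnected_of_open {X : Type u} [TopologicalSpace X] {U V : Set X} (hU : IsOpen U)
    (hV : IsOpen V) (hUV : Disjoint U V) (hU0 : U.Nonempty) (hV0 : V.Nonempty) :
    ¬ IsPreconnected (U ∪ V) := by
  intro h
  obtain ⟨x, -, hx1, hx2⟩ := h U V hU hV subset_rfl
    (hU0.mono fun x hx => ⟨Or.inl hx, hx⟩) (hV0.mono fun x hx => ⟨Or.inr hx, hx⟩)
  exact hUV.le_bot ⟨hx1, hx2⟩

lemma exists_sep {X : Type u} [MetricSpace X] {D : Set X} (hD : ¬ IsPreconnected Dᶜ) :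
    ∃ U V : Set X, IsOpen U ∧ IsOpen V ∧ Disjoint U V ∧ U.Nonempty ∧ V.Nonempty ∧
      (U ∪ V)ᶜ ⊆ D := by
  unfold IsPreconnected at hD
  push Not at hD
  obtain ⟨u, v, hu, hv, hsub, hnu, hnv, hne⟩ := hD
  have hPQ : Disjoint (Dᶜ ∩ u) v := by
    rw [Set.disjoint_iff_inter_eq_empty]
    rw [← hne]; ext x; simp [and_assoc]
  have hQP : Disjoint (Dᶜ ∩ v) u := by
    rw [Set.disjoint_iff_inter_eq_empty]
    rw [← hne]; ext x; simp only [mem_inter_iff]; tauto
  have hsep : SeparatedNhds (Dᶜ ∩ u) (Dᶜ ∩ v) := by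
    have h1 : Disjoint (closure (Dᶜ ∩ u)) (Dᶜ ∩ v) :=
      (hPQ.closure_left hv).mono_right inter_subset_right
    have h2 : Disjoint (Dᶜ ∩ u) (closure (Dᶜ ∩ v)) :=
      ((hQP.closure_left hu).mono_right inter_subset_right).symm
    exact separatedNhds_iff_disjoint.mpr (CompletelyNormalSpace.completely_normal h1 h2)
  obtain ⟨U, V, hU, hV, hPU, hQV, hUV⟩ := hsep
  refine ⟨U, V, hU, hV, hUV, hnu.mono hPU, hnv.mono hQV, ?_⟩
  intro x hx
  by_contra hxD
  apply hx
  rcases hsub hxD with h | h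
  · exact Or.inl (hPU ⟨hxD, h⟩)
  · exact Or.inr (hQV ⟨hxD, h⟩)

/-- If `C` is a set of non-cut points of a connected metric space with the connected intersection
property, and every closed subset of the space contained in `C` is compact, then the complement of
`C` is connected. -/
theorem result (X : Type u) [MetricSpace X] [ConnectedSpace X]
    (hCIP : ∀ A B : Set X, IsPreconnected A → IsPreconnected B → IsPreconnected (A ∩ B))
    (C : Set X) (hC : ∀ p ∈ C, IsPreconnected ({p}ᶜ : Set X))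
    (hcomp : ∀ F : Set X, F ⊆ C → IsClosed F → IsCompact F) :
    IsPreconnected (Cᶜ : Set X) := by
  classical
  by_contra hcon
  obtain ⟨U, V, hU, hV, hUV, hU0, hV0, hsub⟩ := exists_sep hcon
  set F : Set X := closure U ∩ Uᶜ with hFdef
  have hclUV : Disjoint (closure U) V := hUV.closure_left hV
  have hFC : F ⊆ C := by
    rintro x ⟨hx1, hx2⟩
    apply hsub
    rintro (h | h)
    · exact hx2 h
    · exact hclUV.le_bot ⟨hx1, h⟩
  have hFcl : IsClosed F := isClosed_closure.inter hU.isClosed_compl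
  have hFcomp : IsCompact F := hcomp F hFC hFcl
  have hFc : Fᶜ = U ∪ (closure U)ᶜ := by
    rw [hFdef, compl_inter, compl_compl, union_comm]
  have hdense : ∀ x : X, x ∈ closure Fᶜ := by
    intro x
    by_cases hx : x ∈ closure U
    · exact closure_mono (by rw [hFc]; exact subset_union_left) hx
    · exact subset_closure (by rw [hFc]; exact Or.inr hx)
  have hFpos : ¬ IsPreconnected Fᶜ := by
    rw [hFc]
    refine not_preconnected_of_open hU isClosed_closure.isOpen_compl ?_ hU0 ?_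
    · rw [Set.disjoint_left]
      intro x hx h
      exact h (subset_closure hx)
    · exact hV0.mono fun x hx h => hclUV.le_bot ⟨h, hx⟩
  have hmono : ∀ D D' : Set X, D' ⊆ D → D ⊆ F → IsPreconnected Dᶜ → IsPreconnected D'ᶜ := by
    intro D D' h1 h2 h3
    refine h3.subset_closure (compl_subset_compl.mpr h1) ?_
    intro x _
    exact closure_mono (compl_subset_compl.mpr h2) (hdense x)
  have hunion : ∀ D D' : Set X, IsPreconnected Dᶜ → IsPreconnected D'ᶜ →
      IsPreconnected (D ∪ D')ᶜ := by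
    intro D D' h1 h2
    rw [compl_union]
    exact hCIP _ _ h1 h2
  -- the kernel of a closed separating subset of `F` is perfect
  have hker : ∀ T : Set X, T ⊆ F → IsClosed T → ¬ IsPreconnected Tᶜ →
      ∃ T1 : Set X, T1 ⊆ T ∧ T1.Nonempty ∧ IsClosed T1 ∧
        ∀ x ∈ T1, ∀ O : Set X, IsOpen O → x ∈ O → ∃ y ∈ T1, y ∈ O ∧ y ≠ x := by
    intro T hTF hTcl hTpos
    let small : Set X := {t | ∃ O : Set X, IsOpen O ∧ t ∈ O ∧ IsPreconnected (T ∩ O)ᶜ}
    have hsmallOpen : IsOpen small := by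
      rw [isOpen_iff_forall_mem_open]
      rintro t ⟨O, hO, htO, hpre⟩
      exact ⟨O, fun s hs => ⟨O, hO, hs, hpre⟩, hO, htO⟩
    have hind : ∀ S : Set X, S ⊆ T → IsClosed S → S ⊆ small → IsPreconnected Sᶜ := by
      intro S hST hScl hSs
      have hScomp : IsCompact S := hFcomp.of_isClosed_subset hScl (hST.trans hTF)
      have hp : IsPreconnected (S ∩ T)ᶜ := by
        refine hScomp.induction_on (p := fun s => IsPreconnected (s ∩ T)ᶜ) ?_ ?_ ?_ ?_
        · simpa using isPreconnected_univ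
        · intro s t hst ht
          exact hmono _ _ (inter_subset_inter_left T hst) (inter_subset_right.trans hTF) ht
        · intro s t hs ht
          rw [union_inter_distrib_right]
          exact hunion _ _ hs ht
        · intro x hx
          obtain ⟨O, hO, hxO, hpre⟩ := hSs hx
          refine ⟨O, mem_nhdsWithin_of_mem_nhds (hO.mem_nhds hxO), ?_⟩
          rw [inter_comm]; exact hpre
      rwa [inter_eq_left.mpr hST] at hp
    have hrest : IsPreconnected (T ∩ small)ᶜ := by
      by_contra hno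
      obtain ⟨U', V', hU', hV', hUV', hU0', hV0', hsub'⟩ := exists_sep hno
      have h1 := hind (U' ∪ V')ᶜ (fun x hx => (hsub' hx).1) (hU'.union hV').isClosed_compl
        (fun x hx => (hsub' hx).2)
      rw [compl_compl] at h1
      exact not_preconnected_of_open hU' hV' hUV' hU0' hV0' h1
    refine ⟨T ∩ smallᶜ, inter_subset_left, ?_, hTcl.inter hsmallOpen.isClosed_compl, ?_⟩
    · by_contra hno
      apply hTpos
      refine hind T subset_rfl hTcl ?_
      intro t ht
      by_contra hts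
      exact hno ⟨t, ht, hts⟩
    · rintro x ⟨hxT, hxs⟩ O hO hxO
      by_contra hno
      push Not at hno
      apply hxs
      refine ⟨O, hO, hxO, ?_⟩
      have h1 : IsPreconnected ({x} ∪ (T ∩ small))ᶜ := hunion _ _ (hC x (hFC (hTF hxT))) hrest
      refine hmono _ _ ?_ ?_ h1
      · rintro y ⟨hyT, hyO⟩
        by_cases hys : y ∈ small
        · exact Or.inr ⟨hyT, hys⟩
        · exact Or.inl (hno y ⟨hyT, hys⟩ hyO)
      · rintro y (hy | hy)
        · rw [mem_singleton_iff] at hy; rw [hy]; exact hTF hxT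
        · exact hTF hy.1
  have : CompactSpace F := isCompact_iff_compactSpace.mp hFcomp
  obtain ⟨D, hD⟩ := exists_bernstein F
  have hgen : ∀ E : Set F, (∀ P : Set F, Perfect P → P.Nonempty → (P ∩ Eᶜ).Nonempty) →
      IsPreconnected ((Subtype.val '' E)ᶜ : Set X) := by
    intro E hE
    by_contra hno
    obtain ⟨U', V', hU', hV', hUV', hU0', hV0', hsub'⟩ := exists_sep hno
    have hSF : (U' ∪ V')ᶜ ⊆ F := by
      intro x hx
      obtain ⟨y, _, rfl⟩ := hsub' hx
      exact y.2
    obtain ⟨T1, hT1, hT1ne, hT1cl, hT1p⟩ := hker (U' ∪ V')ᶜ hSF (hU'.union hV').isClosed_compl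
      (by rw [compl_compl]; exact not_preconnected_of_open hU' hV' hUV' hU0' hV0')
    have hperf : Perfect (Subtype.val ⁻¹' T1 : Set F) := by
      refine ⟨hT1cl.preimage continuous_subtype_val, ?_⟩
      rw [preperfect_iff_nhds]
      intro x hx W hW
      rw [nhds_subtype_eq_comap, Filter.mem_comap] at hW
      obtain ⟨W', hW', hWW⟩ := hW
      obtain ⟨O, hOW, hO, hxO⟩ := mem_nhds_iff.mp hW'
      obtain ⟨y, hy1, hy2, hy3⟩ := hT1p x.1 hx O hO hxO
      refine ⟨⟨y, hSF (hT1 hy1)⟩, ⟨hWW (hOW hy2), hy1⟩, ?_⟩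
      intro h
      exact hy3 (congrArg Subtype.val h)
    obtain ⟨x, hx⟩ := hT1ne
    obtain ⟨y, hy1, hy2⟩ := hE _ hperf ⟨⟨x, hSF (hT1 hx)⟩, hx⟩
    obtain ⟨z, hz, hzy⟩ := hsub' (hT1 hy1)
    have : z = y := Subtype.ext hzy
    exact hy2 (this ▸ hz)
  have h1 := hgen D (fun P hP hne => (hD P hP hne).2)
  have h2 := hgen Dᶜ (fun P hP hne => by rw [compl_compl]; exact (hD P hP hne).1)
  have h3 := hunion _ _ h1 h2
  rw [← image_union, union_compl_self, image_univ, Subtype.range_coe] at h3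
  exact hFpos h3

end Pool.Agent.Results.MP_0e7155_gt.CompactClosedSubsets
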