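import Mathlib

set_option autoImplicit false

open Set Topology

universe u

namespace Pool.Agent.Results.MP_0e7155_gt.LocallyConnectedAtCutPoints

lemma not_preconnected_of_open {X : Type u} [TopologicalSpace X] {U V : Set X} (hU : IsOpen U)
    (hV : IsOpen V) (hUV : Disjoint U V) (hU0 : U.Nonempty) (hV0 : V.Nonempty) :
    ¬ IsPreconnected (U ∪ V) := by
  intro h
  obtain ⟨x, -, hx1, hx2⟩ := h U V hU hV subset_rfl
    (hU0.mono fun x hx => ⟨Or.inl hx, hx⟩) (hV0.mono fun x hx => ⟨Or.inr hx, hx⟩)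
  exact hUV.le_bot ⟨hx1, hx2⟩

lemma exists_sep {X : Type u} [MetricSpace X] {D : Set X} (hD : ¬ IsPreconnected D) :
    ∃ U V : Set X, IsOpen U ∧ IsOpen V ∧ Disjoint U V ∧ (D ∩ U).Nonempty ∧ (D ∩ V).Nonempty ∧
      D ⊆ U ∪ V := by
  unfold IsPreconnected at hD
  push Not at hD
  obtain ⟨u, v, hu, hv, hsub, hnu, hnv, hne⟩ := hD
  have hPQ : Disjoint (D ∩ u) v := by
    rw [Set.disjoint_iff_inter_eq_empty]
    rw [← hne]; ext x; simp [and_assoc]
  have hQP : Disjoint (D ∩ v) u := by
    rw [Set.disjoint_iff_inter_eq_empty]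
    rw [← hne]; ext x; simp only [mem_inter_iff]; tauto
  have hsep : SeparatedNhds (D ∩ u) (D ∩ v) := by
    have h1 : Disjoint (closure (D ∩ u)) (D ∩ v) :=
      (hPQ.closure_left hv).mono_right inter_subset_right
    have h2 : Disjoint (D ∩ u) (closure (D ∩ v)) :=
      ((hQP.closure_left hu).mono_right inter_subset_right).symm
    exact separatedNhds_iff_disjoint.mpr (CompletelyNormalSpace.completely_normal h1 h2)
  obtain ⟨U, V, hU, hV, hPU, hQV, hUV⟩ := hsep
  refine ⟨U, V, hU, hV, hUV, ?_, ?_, ?_⟩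
  · obtain ⟨x, hx⟩ := hnu
    exact ⟨x, hx.1, hPU hx⟩
  · obtain ⟨x, hx⟩ := hnv
    exact ⟨x, hx.1, hQV hx⟩
  · intro x hx
    rcases hsub hx with h | h
    · exact Or.inl (hPU ⟨hx, h⟩)
    · exact Or.inr (hQV ⟨hx, h⟩)

/-- If `M` is connected, `U, V` are disjoint open sets covering `Mᶜ`, then `M ∪ (Mᶜ ∩ V)` is
connected. -/
lemma preconnected_union_side {X : Type u} [MetricSpace X] [ConnectedSpace X] {M U V : Set X}
    (hM : IsPreconnected M) (hM0 : M.Nonempty) (hU : IsOpen U) (hV : IsOpen V)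
    (hUV : Disjoint U V) (hcov : Mᶜ ⊆ U ∪ V) : IsPreconnected (M ∪ (Mᶜ ∩ V)) := by
  by_contra hno
  obtain ⟨O1, O2, hO1, hO2, hO, hne1, hne2, hcov2⟩ := exists_sep hno
  have key : ∀ O1 O2 : Set X, IsOpen O1 → IsOpen O2 → Disjoint O1 O2 →
      ((M ∪ (Mᶜ ∩ V)) ∩ O2).Nonempty → M ∪ (Mᶜ ∩ V) ⊆ O1 ∪ O2 → M ⊆ O1 → False := by
    intro O1 O2 hO1 hO2 hO hne2 hcov2 hMO
    have hMO2 : ∀ x ∈ M, x ∉ O2 := fun x hx h => hO.le_bot ⟨hMO hx, h⟩
    have hcl : (V ∩ O2)ᶜ = U ∪ O1 := by
      ext x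
      constructor
      · intro hx
        by_cases hxM : x ∈ M
        · exact Or.inr (hMO hxM)
        · rcases hcov hxM with h | h
          · exact Or.inl h
          · rcases hcov2 (Or.inr ⟨hxM, h⟩) with h' | h'
            · exact Or.inr h'
            · exact absurd ⟨h, h'⟩ hx
      · rintro (h | h) ⟨h1, h2⟩
        · exact hUV.le_bot ⟨h, h1⟩
        · exact hO.le_bot ⟨h, h2⟩
    have hclopen : IsClopen (V ∩ O2) := by
      refine ⟨?_, hV.inter hO2⟩
      rw [← isOpen_compl_iff, hcl]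
      exact hU.union hO1
    obtain ⟨x, hx1, hx2⟩ := hne2
    have hx : x ∈ V ∩ O2 := by
      rcases hx1 with h | h
      · exact absurd hx2 (hMO2 x h)
      · exact ⟨h.2, hx2⟩
    have huniv := hclopen.eq_univ ⟨x, hx⟩
    obtain ⟨m, hm⟩ := hM0
    have : m ∈ V ∩ O2 := huniv ▸ mem_univ m
    exact hMO2 m hm this.2
  rcases hM.subset_or_subset hO1 hO2 hO (subset_union_left.trans hcov2) with h | h
  · exact key O1 O2 hO1 hO2 hO hne2 hcov2 h
  · exact key O2 O1 hO2 hO1 hO.symm hne1 (by rw [union_comm O2 O1]; exact hcov2) h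

/-- The complement of a component of the complement of a connected set is connected. -/
lemma compl_component {X : Type u} [MetricSpace X] [ConnectedSpace X] {A : Set X}
    (hA : IsPreconnected A) {m : X} (hm : m ∈ Aᶜ) :
    IsPreconnected (connectedComponentIn Aᶜ m)ᶜ := by
  set M := connectedComponentIn Aᶜ m with hMdef
  have hMpre : IsPreconnected M := isPreconnected_connectedComponentIn
  have hmM : m ∈ M := mem_connectedComponentIn hm
  have hMA : M ⊆ Aᶜ := connectedComponentIn_subset _ _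
  by_contra hno
  obtain ⟨U, V, hU, hV, hUV, hneU, hneV, hcov⟩ := exists_sep hno
  have key : ∀ U V : Set X, IsOpen U → IsOpen V → Disjoint U V → (Mᶜ ∩ V).Nonempty →
      Mᶜ ⊆ U ∪ V → A ⊆ U → False := by
    intro U V hU hV hUV hneV hcov hAU
    have h1 := preconnected_union_side hMpre ⟨m, hmM⟩ hU hV hUV hcov
    have h2 : M ∪ (Mᶜ ∩ V) ⊆ Aᶜ := by
      rintro x (hx | hx) hxA
      · exact hMA hx hxA
      · exact hUV.le_bot ⟨hAU hxA, hx.2⟩
    have h3 : M ∪ (Mᶜ ∩ V) ⊆ M := h1.subset_connectedComponentIn (Or.inl hmM) h2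
    obtain ⟨x, hx1, hx2⟩ := hneV
    exact hx1 (h3 (Or.inr ⟨hx1, hx2⟩))
  have hAM : A ⊆ Mᶜ := fun x hx hxM => hMA hxM hx
  rcases hA.subset_or_subset hU hV hUV (hAM.trans hcov) with h | h
  · exact key U V hU hV hUV hneV hcov h
  · exact key V U hV hU hUV.symm hneU (by rw [union_comm V U]; exact hcov) h

lemma not_preconnected_pair {X : Type u} [MetricSpace X] {b b' : X} (h : b ≠ b') :
    ¬ IsPreconnected ({b, b'} : Set X) := by
  intro hp
  obtain ⟨u', v', hu', hv', hbu, hbv, huv'⟩ := t2_separation h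
  obtain ⟨x, hx, hx1, hx2⟩ := hp u' v' hu' hv'
    (by rintro x (rfl | hx)
        · exact Or.inl hbu
        · rw [mem_singleton_iff] at hx; rw [hx]; exact Or.inr hbv)
    ⟨b, by simp, hbu⟩ ⟨b', by simp, hbv⟩
  exact huv'.le_bot ⟨hx1, hx2⟩

lemma eq_of_mem_closure {X : Type u} [MetricSpace X]
    (hCIP : ∀ A B : Set X, IsPreconnected A → IsPreconnected B → IsPreconnected (A ∩ B))
    {K : Set X} (hK : IsPreconnected K) (hKc : IsPreconnected Kᶜ) {b b' : X}
    (hb : b ∈ closure K ∩ Kᶜ) (hb' : b' ∈ closure K ∩ Kᶜ) : b = b' := by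
  by_contra hne
  have hA : IsPreconnected (K ∪ {b, b'}) := by
    apply hK.subset_closure subset_union_left
    rintro x (hx | hx)
    · exact subset_closure hx
    · rcases hx with rfl | hx
      · exact hb.1
      · rw [mem_singleton_iff] at hx; rw [hx]; exact hb'.1
  have hAB : (K ∪ {b, b'}) ∩ Kᶜ = {b, b'} := by
    ext x
    constructor
    · rintro ⟨hx1 | hx1, hx2⟩
      · exact absurd hx1 hx2
      · exact hx1
    · intro hx
      refine ⟨Or.inr hx, ?_⟩
      rcases hx with rfl | hx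
      · exact hb.2
      · rw [mem_singleton_iff] at hx; rw [hx]; exact hb'.2
  exact not_preconnected_pair hne (hAB ▸ hCIP _ _ hA hKc)

/-- A boundary point of a partition into two connected sets is a cut point if it lies in a side
with at least two points. -/
lemma cut_of_mem {X : Type u} [MetricSpace X]
    (hCIP : ∀ A B : Set X, IsPreconnected A → IsPreconnected B → IsPreconnected (A ∩ B))
    {K : Set X} (hK : IsPreconnected K) (hKc : IsPreconnected Kᶜ) (hne : K.Nonempty)
    (hnt : (Kᶜ).Nontrivial) {b : X} (hb1 : b ∈ closure K) (hb2 : b ∈ Kᶜ) :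
    ¬ IsPreconnected ({b}ᶜ : Set X) := by
  have hopen : ∀ x ∈ K, x ∉ closure Kᶜ := by
    intro x hx hxc
    have hbx : b ≠ x := fun h => hb2 (h ▸ hx)
    have hpre : IsPreconnected (closure K ∩ closure Kᶜ) := hCIP _ _ hK.closure hKc.closure
    have heq : closure K ∩ closure Kᶜ = {b, x} := by
      ext y
      constructor
      · rintro ⟨hy1, hy2⟩
        by_cases hyK : y ∈ K
        · right
          rw [mem_singleton_iff]
          exact eq_of_mem_closure hCIP hKc (by rwa [compl_compl])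
            ⟨hy2, by rwa [compl_compl]⟩ ⟨hxc, by rwa [compl_compl]⟩
        · left
          exact eq_of_mem_closure hCIP hK hKc ⟨hy1, hyK⟩ ⟨hb1, hb2⟩
      · rintro (rfl | hy)
        · exact ⟨hb1, subset_closure hb2⟩
        · rw [mem_singleton_iff] at hy; rw [hy]; exact ⟨subset_closure hx, hxc⟩
    exact not_preconnected_pair hbx (heq ▸ hpre)
  have heq : ({b}ᶜ : Set X) = (closure Kᶜ)ᶜ ∪ (closure K)ᶜ := by
    ext y
    constructor
    · intro hy
      by_cases hyK : y ∈ K
      · exact Or.inl (hopen y hyK)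
      · right
        intro hyc
        exact hy (eq_of_mem_closure hCIP hK hKc ⟨hyc, hyK⟩ ⟨hb1, hb2⟩)
    · rintro (hy | hy) hyb
      · rw [mem_singleton_iff] at hyb; rw [hyb] at hy; exact hy (subset_closure hb2)
      · rw [mem_singleton_iff] at hyb; rw [hyb] at hy; exact hy hb1
  rw [heq]
  refine not_preconnected_of_open isClosed_closure.isOpen_compl isClosed_closure.isOpen_compl
    ?_ ?_ ?_
  · rw [Set.disjoint_left]
    intro y hy1 hy2
    by_cases hyK : y ∈ K
    · exact hy2 (subset_closure hyK)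
    · exact hy1 (subset_closure hyK)
  · obtain ⟨x, hx⟩ := hne
    exact ⟨x, hopen x hx⟩
  · obtain ⟨y, hy, hyb⟩ := hnt.exists_ne b
    refine ⟨y, fun hyc => hyb ?_⟩
    exact eq_of_mem_closure hCIP hK hKc ⟨hyc, hy⟩ ⟨hb1, hb2⟩

/-- Let `X` be a connected metric space with the connected intersection property whose cut points
have arbitrarily small connected neighbourhoods, and let `C` be a set of non-cut points such that
every open set meeting the complement of `C` contains a connected set with at least two points.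
Then the complement of `C` is connected. -/
theorem result (X : Type u) [MetricSpace X] [ConnectedSpace X]
    (hCIP : ∀ A B : Set X, IsPreconnected A → IsPreconnected B → IsPreconnected (A ∩ B))
    (hloc : ∀ b : X, ¬ IsPreconnected ({b}ᶜ : Set X) →
      ∀ O : Set X, IsOpen O → b ∈ O → ∃ N ∈ 𝓝 b, N ⊆ O ∧ IsPreconnected N)
    (C : Set X) (hC : ∀ p ∈ C, IsPreconnected ({p}ᶜ : Set X))
    (hopen : ∀ O : Set X, IsOpen O → (O ∩ Cᶜ).Nonempty →
      ∃ N : Set X, N ⊆ O ∧ N.Nontrivial ∧ IsPreconnected N) :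
    IsPreconnected (Cᶜ : Set X) := by
  classical
  by_contra hcon
  obtain ⟨U, V, hU, hV, hUV, hU0, hV0, hcov⟩ := exists_sep hcon
  rw [inter_comm] at hU0 hV0
  obtain ⟨NU, hNU, hNUnt, hNUpre⟩ := hopen U hU hU0
  obtain ⟨NV, hNV, hNVnt, hNVpre⟩ := hopen V hV hV0
  obtain ⟨x0, hx0⟩ := hNUnt.nonempty
  obtain ⟨y0, hy0⟩ := hNVnt.nonempty
  set G := connectedComponentIn U x0 with hG
  have hGpre : IsPreconnected G := isPreconnected_connectedComponentIn
  have hNUG : NU ⊆ G := hNUpre.subset_connectedComponentIn hx0 hNU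
  have hGU : G ⊆ U := connectedComponentIn_subset _ _
  have hGV : Disjoint (closure G) V := (hUV.mono_left hGU).closure_left hV
  have hNVO : NV ⊆ (closure G)ᶜ := fun x hx h => hGV.le_bot ⟨h, hNV hx⟩
  set M := connectedComponentIn (closure G)ᶜ y0 with hM
  have hMpre : IsPreconnected M := isPreconnected_connectedComponentIn
  have hNVM : NV ⊆ M := hNVpre.subset_connectedComponentIn hy0 hNVO
  have hMO : M ⊆ (closure G)ᶜ := connectedComponentIn_subset _ _
  have hMc : IsPreconnected Mᶜ := compl_component hGpre.closure (hNVO hy0)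
  have hMnt : M.Nontrivial := hNVnt.mono hNVM
  have hMcnt : (Mᶜ).Nontrivial :=
    hNUnt.mono fun x hx h => hMO h (subset_closure (hNUG hx))
  -- a boundary point of `M`
  have hb : ∃ b, b ∈ closure M ∧ b ∈ closure Mᶜ := by
    by_contra hno
    push Not at hno
    have hclopen : IsClopen M := by
      rw [isClopen_iff_frontier_eq_empty, frontier_eq_closure_inter_closure]
      rw [eq_empty_iff_forall_notMem]
      rintro x ⟨h1, h2⟩
      exact hno x h1 h2
    have huniv := hclopen.eq_univ hMnt.nonempty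
    obtain ⟨z, hz⟩ := hMcnt.nonempty
    exact hz (huniv ▸ mem_univ z)
  obtain ⟨b, hb1, hb2⟩ := hb
  have hcut : ¬ IsPreconnected ({b}ᶜ : Set X) := by
    by_cases hbM : b ∈ M
    · refine cut_of_mem hCIP (K := Mᶜ) hMc (by rwa [compl_compl]) hMcnt.nonempty
        (by rwa [compl_compl]) hb2 (by rwa [compl_compl])
    · exact cut_of_mem hCIP hMpre hMc hMnt.nonempty hMcnt hb1 hbM
  have hbC : b ∈ Cᶜ := fun h => hcut (hC b h)
  have hbG : b ∈ closure G := by
    by_contra hbG
    obtain ⟨N, hN, hNO, hNpre⟩ := hloc b hcut (closure G)ᶜ isClosed_closure.isOpen_compl hbG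
    obtain ⟨z, hz1, hz2⟩ := mem_closure_iff_nhds.mp hb1 N hN
    obtain ⟨w, hw1, hw2⟩ := mem_closure_iff_nhds.mp hb2 N hN
    have h1 : N ⊆ connectedComponentIn (closure G)ᶜ z := hNpre.subset_connectedComponentIn hz1 hNO
    have h2 : M = connectedComponentIn (closure G)ᶜ z := connectedComponentIn_eq hz2
    exact hw2 (h2 ▸ h1 hw1)
  have hbU : b ∈ U := by
    rcases hcov hbC with h | h
    · exact h
    · exact absurd ⟨hbG, h⟩ (fun h => hGV.le_bot h)
  obtain ⟨N, hN, hNO, hNpre⟩ := hloc b hcut U hU hbU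
  obtain ⟨z, hz1, hz2⟩ := mem_closure_iff_nhds.mp hbG N hN
  obtain ⟨w, hw1, hw2⟩ := mem_closure_iff_nhds.mp hb1 N hN
  have h1 : N ⊆ connectedComponentIn U z := hNpre.subset_connectedComponentIn hz1 hNO
  have h2 : G = connectedComponentIn U z := connectedComponentIn_eq hz2
  exact hMO hw2 (subset_closure (h2 ▸ h1 hw1))

end Pool.Agent.Results.MP_0e7155_gt.LocallyConnectedAtCutPoints
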